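import Pool.Agent.H261R3.LH.Stmts

/-! Project LH, task LineOf. -/

set_option autoImplicit false

namespace Pool.Agent.H531R3.LH

open Pool.Agent.H261R3.LH

lemma clip_le_one (x : ℝ) : clip x ≤ 1 := max_le zero_le_one (min_le_left _ _)

lemma clip_zero : clip 0 = 0 := by simp [clip]

lemma clip_one : clip 1 = 1 := by simp [clip]

lemma clip_lip (x y : ℝ) : |clip x - clip y| ≤ |x - y| := by
  unfold clip
  have h1 : |max 0 (min 1 x) - max 0 (min 1 y)| ≤ |min 1 x - min 1 y| := by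
    rw [max_comm 0, max_comm 0]
    exact abs_max_sub_max_le_abs _ _ _
  have h2 : |min 1 x - min 1 y| ≤ |x - y| := by
    have := abs_min_sub_min_le_max 1 x 1 y
    simpa using this
  exact h1.trans h2

variable {S : Type} [MetricSpace S]

lemma Lip1.mono {C C' : ℝ} {f : ℝ → S} (h : Lip1 C f) (hC : C ≤ C') : Lip1 C' f := fun x y =>
  (h x y).trans (mul_le_mul_of_nonneg_right hC (abs_nonneg _))

lemma Lip1.comp {C D : ℝ} {f : ℝ → S} {u : ℝ → ℝ} (h : Lip1 C f) (hC : 0 ≤ C)
    (hu : ∀ x y, |u x - u y| ≤ D * |x - y|) : Lip1 (C * D) (fun x => f (u x)) := fun x y =>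
  (h _ _).trans (by rw [mul_assoc]; exact mul_le_mul_of_nonneg_left (hu x y) hC)

lemma glue {C : ℝ} (a : ℝ) {f g : ℝ → S} (hf : Lip1 C f) (hg : Lip1 C g) (h : f a = g a) :
    Lip1 C (fun x => if x ≤ a then f x else g x) := by
  have key : ∀ x y, x ≤ a → ¬ y ≤ a → dist (f x) (g y) ≤ C * |x - y| := by
    intro x y hx hy
    have h1 := hf x a
    have h2 := hg a y
    rw [abs_of_nonpos (by linarith)] at h1 h2
    rw [abs_of_nonpos (by linarith)]
    calc dist (f x) (g y) ≤ dist (f x) (f a) + dist (f a) (g y) := dist_triangle _ _ _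
      _ ≤ C * -(x - a) + C * -(a - y) := by
        rw [h] at h1 ⊢
        linarith
      _ = _ := by ring
  intro x y
  by_cases hx : x ≤ a <;> by_cases hy : y ≤ a
  · simpa [hx, hy] using hf x y
  · simpa [hx, hy] using key x y hx hy
  · have := key y x hy hx
    rw [dist_comm, abs_sub_comm] at this
    simpa [hx, hy] using this
  · simpa [hx, hy] using hg x y

lemma glue_floor {C : ℝ} {f : ℤ → ℝ → S} (hf : ∀ m, Lip1 C (f m)) (h : ∀ m, f m 1 = f (m + 1) 0) :
    Lip1 C (fun v => f ⌊v⌋ (Int.fract v)) := by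
  have key : ∀ (n : ℕ) (v w : ℝ), v ≤ w → ⌊w⌋ = ⌊v⌋ + n →
      dist (f ⌊v⌋ (Int.fract v)) (f ⌊w⌋ (Int.fract w)) ≤ C * (w - v) := by
    intro n
    induction n with
    | zero =>
      intro v w hvw hn
      have e : ⌊w⌋ = ⌊v⌋ := by simpa using hn
      rw [e]
      refine (hf _ _ _).trans (le_of_eq ?_)
      have h1 : Int.fract v - Int.fract w = v - w := by
        rw [Int.fract, Int.fract, e]; ring
      rw [h1, abs_of_nonpos (by linarith)]
      ring
    | succ n ih =>
      intro v w hvw hn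
      have e0 : ⌊(((⌊v⌋ + 1 : ℤ)) : ℝ)⌋ = ⌊v⌋ + 1 := Int.floor_intCast _
      have e1 : Int.fract (((⌊v⌋ + 1 : ℤ)) : ℝ) = 0 := Int.fract_intCast _
      have h1 : (((⌊v⌋ + 1 : ℤ)) : ℝ) ≤ w := by
        have h2 : ⌊v⌋ + 1 ≤ ⌊w⌋ := by rw [hn]; push_cast; omega
        have h3 : (((⌊v⌋ + 1 : ℤ)) : ℝ) ≤ (⌊w⌋ : ℝ) := by exact_mod_cast h2
        exact h3.trans (Int.floor_le w)
      have h4 := ih _ w h1 (by rw [e0, hn]; push_cast; ring)
      rw [e0, e1, ← h] at h4
      have h5 := hf ⌊v⌋ (Int.fract v) 1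
      have h6 := Int.fract_lt_one v
      rw [abs_of_nonpos (by linarith)] at h5
      have h7 : v = ⌊v⌋ + Int.fract v := (Int.floor_add_fract v).symm
      calc dist (f ⌊v⌋ (Int.fract v)) (f ⌊w⌋ (Int.fract w))
          ≤ dist (f ⌊v⌋ (Int.fract v)) (f ⌊v⌋ 1) + dist (f ⌊v⌋ 1) (f ⌊w⌋ (Int.fract w)) :=
            dist_triangle _ _ _
        _ ≤ C * -(Int.fract v - 1) + C * (w - ((⌊v⌋ + 1 : ℤ) : ℝ)) := add_le_add h5 h4
        _ = C * (w - (⌊v⌋ + Int.fract v)) := by push_cast; ring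
        _ = C * (w - v) := by rw [← h7]
  intro v w
  rcases le_total v w with hvw | hvw
  · have h1 : ⌊v⌋ ≤ ⌊w⌋ := Int.floor_mono hvw
    have h2 := key (⌊w⌋ - ⌊v⌋).toNat v w hvw (by rw [Int.toNat_of_nonneg (by omega)]; ring)
    rw [abs_of_nonpos (by linarith)]
    simpa using h2
  · have h1 : ⌊w⌋ ≤ ⌊v⌋ := Int.floor_mono hvw
    have h2 := key (⌊v⌋ - ⌊w⌋).toNat w v hvw (by rw [Int.toNat_of_nonneg (by omega)]; ring)
    rw [abs_of_nonneg (by linarith), dist_comm]
    simpa using h2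

theorem taskLineOf : TaskLineOf := by
  intro hPath hNul S _ _ _ hS p C
  obtain ⟨C1, hC1, hP⟩ := hPath S hS p
  set L : ℝ := max (max C 0) C1 with hL
  have hL0 : 0 ≤ L := (le_max_right C 0).trans (le_max_left _ _)
  have hCL : C ≤ L := (le_max_left C 0).trans (le_max_left _ _)
  have hC1L : C1 ≤ L := le_max_right _ _
  obtain ⟨C2, hC2, hK⟩ := hNul S hS p (3 * L)
  refine ⟨3 * L + 2 * C2, by positivity, fun l hl => ?_⟩
  choose P hPl hP0 hP1 using hP
  -- clipped paths
  set Q : ℤ → ℝ → S := fun m u => P (l m) (clip u) with hQ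
  have hQl : ∀ m, Lip1 L (Q m) := fun m x y =>
    ((Lip1.mono (hPl (l m)) hC1L) _ _).trans (mul_le_mul_of_nonneg_left (clip_lip x y) hL0)
  have hQ0 : ∀ m, Q m 0 = l m := fun m => by simp only [hQ, clip_zero, hP0]
  have hQ1 : ∀ m, Q m 1 = p := fun m => by simp only [hQ, clip_one, hP1]
  set e : ℤ → ℝ → S := fun m u => if u ≤ 0 then Q m (-u) else
    (if u ≤ 1 then l (m + u) else Q (m + 1) (u - 1)) with he
  have hel : ∀ m, Lip1 L (e m) := by
    intro m
    have g1 : Lip1 L (fun u : ℝ => if u ≤ 1 then l (m + u) else Q (m + 1) (u - 1)) := by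
      refine glue 1 ?_ ?_ ?_
      · intro x y
        refine ((Lip1.mono hl hCL) _ _).trans (le_of_eq ?_)
        congr 2; ring
      · intro x y
        refine (hQl (m + 1) _ _).trans (le_of_eq ?_)
        congr 2; ring
      · rw [sub_self, hQ0]; push_cast; rfl
    refine glue 0 ?_ g1 ?_
    · intro x y
      refine (hQl m _ _).trans (le_of_eq ?_)
      rw [show -x - -y = -(x - y) by ring, abs_neg]
    · simp only [neg_zero, zero_le_one, if_true, add_zero]
      exact hQ0 m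
  have he_neg : ∀ m u, 0 ≤ u → e m (-u) = Q m u := by
    intro m u hu
    simp only [he]
    rw [if_pos (by linarith), neg_neg]
  have he_mid : ∀ (m : ℤ) (u : ℝ), 0 ≤ u → u ≤ 1 → e m u = l (m + u) := by
    intro m u hu hu1
    simp only [he]
    split_ifs with h1
    · have : u = 0 := le_antisymm h1 hu
      subst this
      rw [neg_zero, hQ0, add_zero]
    · rfl
  have he_pos : ∀ m u, 0 ≤ u → e m (1 + u) = Q (m + 1) u := by
    intro m u hu
    simp only [he]
    rw [if_neg (by linarith)]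
    split_ifs with h1
    · have : u = 0 := by linarith
      subst this
      rw [hQ0]; push_cast; rw [add_zero]
    · rw [add_sub_cancel_left]
  -- null-homotopies of the loops
  have hloop : ∀ m, Lip1 (3 * L) (fun s => e m (3 * s - 1)) := by
    intro m x y
    refine (hel m _ _).trans (le_of_eq ?_)
    rw [show 3 * x - 1 - (3 * y - 1) = 3 * (x - y) by ring, abs_mul, abs_of_pos (by norm_num : (0:ℝ) < 3)]
    ring
  have hl0 : ∀ m, e m (3 * 0 - 1) = p := fun m => by
    rw [show (3 : ℝ) * 0 - 1 = -1 by ring, he_neg m 1 zero_le_one, hQ1]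
  have hl1 : ∀ m, e m (3 * 1 - 1) = p := fun m => by
    rw [show (3 : ℝ) * 1 - 1 = 1 + 1 by ring, he_pos m 1 zero_le_one, hQ1]
  choose K hKh hKt hK0 hK1 hKb using fun m => hK (fun s => e m (3 * s - 1)) (hloop m) (hl0 m) (hl1 m)
  set F : ℤ → ℝ → ℝ → S := fun m s t => if t ≤ 1 / 2 then e m ((1 + 2 * clip (2 * t)) * s - clip (2 * t))
    else K m s (clip (2 * t - 1)) with hF
  have hFs : ∀ m t, Lip1 (3 * L + 2 * C2) (fun s => F m s t) := by
    intro m t x y
    simp only [hF]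
    have c0 := clip_nonneg (2 * t)
    have c1 := clip_le_one (2 * t)
    split_ifs with h
    · refine (hel m _ _).trans ?_
      rw [show (1 + 2 * clip (2 * t)) * x - clip (2 * t) - ((1 + 2 * clip (2 * t)) * y - clip (2 * t)) =
        (1 + 2 * clip (2 * t)) * (x - y) by ring, abs_mul, abs_of_nonneg (by linarith : 0 ≤ 1 + 2 * clip (2 * t))]
      calc L * ((1 + 2 * clip (2 * t)) * |x - y|) ≤ L * (3 * |x - y|) := by gcongr; linarith
        _ ≤ (3 * L + 2 * C2) * |x - y| := by nlinarith [mul_nonneg hC2 (abs_nonneg (x - y))]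
    · refine (hKh m _ _ _).trans ?_
      nlinarith [mul_nonneg hC2 (abs_nonneg (x - y)), mul_nonneg hL0 (abs_nonneg (x - y))]
  have hFt : ∀ m s, 0 ≤ s → s ≤ 1 → Lip1 (3 * L + 2 * C2) (fun t => F m s t) := by
    intro m s hs hs1
    refine glue (1 / 2) ?_ ?_ ?_
    · intro x y
      refine (hel m _ _).trans ?_
      have h1 := clip_lip (2 * x) (2 * y)
      rw [show 2 * x - 2 * y = 2 * (x - y) by ring, abs_mul, abs_of_pos (by norm_num : (0:ℝ) < 2)] at h1
      rw [show (1 + 2 * clip (2 * x)) * s - clip (2 * x) - ((1 + 2 * clip (2 * y)) * s - clip (2 * y)) =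
        (2 * s - 1) * (clip (2 * x) - clip (2 * y)) by ring, abs_mul]
      have h2 : |2 * s - 1| ≤ 1 := abs_le.2 ⟨by linarith, by linarith⟩
      calc L * (|2 * s - 1| * |clip (2 * x) - clip (2 * y)|) ≤ L * (1 * (2 * |x - y|)) := by gcongr
        _ ≤ (3 * L + 2 * C2) * |x - y| := by
          nlinarith [mul_nonneg hC2 (abs_nonneg (x - y)), mul_nonneg hL0 (abs_nonneg (x - y))]
    · intro x y
      refine (hKt m s _ _).trans ?_
      have h1 := clip_lip (2 * x - 1) (2 * y - 1)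
      rw [show 2 * x - 1 - (2 * y - 1) = 2 * (x - y) by ring, abs_mul, abs_of_pos (by norm_num : (0:ℝ) < 2)] at h1
      calc C2 * |clip (2 * x - 1) - clip (2 * y - 1)| ≤ C2 * (2 * |x - y|) := by gcongr
        _ ≤ (3 * L + 2 * C2) * |x - y| := by nlinarith [mul_nonneg hL0 (abs_nonneg (x - y))]
    · rw [show (2 : ℝ) * (1 / 2) = 1 by norm_num, clip_one, sub_self, clip_zero, hK0 m s hs hs1]
      congr 1; ring
  have hFm : ∀ m t, F m 1 t = F (m + 1) 0 t := by
    intro m t
    simp only [hF]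
    have c0 := clip_nonneg (2 * t)
    split_ifs with h
    · rw [show (1 + 2 * clip (2 * t)) * 1 - clip (2 * t) = 1 + clip (2 * t) by ring, he_pos m _ c0,
        show (1 + 2 * clip (2 * t)) * 0 - clip (2 * t) = -clip (2 * t) by ring, he_neg _ _ c0]
    · rw [(hKb m _).2, (hKb (m + 1) _).1]
  refine ⟨fun v t => F ⌊v⌋ (Int.fract v) t, fun t => ?_, fun v => ?_, fun v => ?_, fun v => ?_⟩
  · exact glue_floor (f := fun m s => F m s t) (fun m => hFs m t) (fun m => hFm m t)
  · exact hFt _ _ (Int.fract_nonneg v) (Int.fract_lt_one v).le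
  · simp only [hF]
    rw [if_pos (by norm_num), mul_zero, clip_zero, mul_zero, add_zero, one_mul, sub_zero,
      he_mid _ _ (Int.fract_nonneg v) (Int.fract_lt_one v).le, Int.floor_add_fract]
  · simp only [hF]
    rw [if_neg (by norm_num), show (2 : ℝ) * 1 - 1 = 1 by norm_num, clip_one, hK1]

end Pool.Agent.H531R3.LH
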